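import Mathlib

-- part MP_a58584_gt.Face
section

/-!
Faces of a product of real lines: a face fixes countably many coordinates.
-/

set_option autoImplicit false

namespace Pool.Agent.MP_a58584_gt

open Set Filter Topology

variable {J : Type*}

/-- Decreasing sequences of faces have a common point, so a bounded process stops. -/
theorem exists_terminal (P : Set J → (J → ℝ) → ℕ → Prop) (A0 : Set J) (a0 : J → ℝ) (k0 : ℕ)
    (hA0 : A0.Countable) (h0 : P A0 a0 k0)
    (hb : ∀ z, EqOn z a0 A0 → ∃ N, ∀ A a k, EqOn z a A → N ≤ k → ¬ P A a k) :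
    ∃ A a k, A.Countable ∧ A0 ⊆ A ∧ EqOn a a0 A0 ∧ k0 ≤ k ∧ P A a k ∧
      ∀ A' a', A'.Countable → A ⊆ A' → EqOn a' a A → ¬ P A' a' (k + 1) := by
  classical
  by_contra hcon
  push Not at hcon
  let T : ℕ → Type _ := fun n => {q : Set J × (J → ℝ) //
    q.1.Countable ∧ A0 ⊆ q.1 ∧ EqOn q.2 a0 A0 ∧ P q.1 q.2 (k0 + n)}
  have step : ∀ n, ∀ q : T n, ∃ q' : T (n + 1), q.1.1 ⊆ q'.1.1 ∧ EqOn q'.1.2 q.1.2 q.1.1 := by
    rintro n ⟨⟨A, a⟩, h1, h2, h3, h4⟩
    obtain ⟨A', a', h5, h6, h7, h8⟩ := hcon A a (k0 + n) h1 h2 h3 (by omega) h4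
    exact ⟨⟨(A', a'), h5, h2.trans h6, fun i hi => (h7 (h2 hi)).trans (h3 hi), h8⟩, h6, h7⟩
  choose nxt hn1 hn2 using step
  let s : ∀ n, T n := fun n => Nat.rec (⟨(A0, a0), hA0, subset_rfl, fun _ _ => rfl, h0⟩ : T 0)
    (fun n q => nxt n q) n
  have hs : ∀ m n, m ≤ n → (s m).1.1 ⊆ (s n).1.1 ∧ EqOn (s n).1.2 (s m).1.2 (s m).1.1 := by
    intro m n hmn
    induction n, hmn using Nat.le_induction with
    | base => exact ⟨subset_rfl, fun _ _ => rfl⟩
    | succ n _ ih =>
      exact ⟨ih.1.trans (hn1 n (s n)), fun i hi => (hn2 n (s n) (ih.1 hi)).trans (ih.2 hi)⟩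
  let z : J → ℝ := fun i => if h : ∃ n, i ∈ (s n).1.1 then (s (Nat.find h)).1.2 i else a0 i
  have hz : ∀ n, EqOn z (s n).1.2 (s n).1.1 := by
    intro n i hi
    have h : ∃ n, i ∈ (s n).1.1 := ⟨n, hi⟩
    simp only [z, dif_pos h]
    exact ((hs _ _ (Nat.find_min' h hi)).2 (Nat.find_spec h)).symm
  obtain ⟨N, hN⟩ := hb z (hz 0)
  exact hN _ _ (k0 + N) (hz N) (by omega) (s N).2.2.2.2

theorem exists_finset_of_mem_nhds {G : Set (J → ℝ)} {u : J → ℝ} (h : G ∈ 𝓝 u) :
    ∃ S : Finset J, ∀ v, EqOn v u S → v ∈ G := by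
  rw [nhds_pi, Filter.mem_pi'] at h
  obtain ⟨S, t, ht, hS⟩ := h
  refine ⟨S, fun v hv => hS fun i hi => ?_⟩
  rw [hv hi]
  exact mem_of_mem_nhds (ht i)

theorem continuous_piecewise_left (A : Set J) [∀ i, Decidable (i ∈ A)] (a : J → ℝ) :
    Continuous (fun z : J → ℝ => A.piecewise a z) := by
  refine continuous_pi fun i => ?_
  by_cases h : i ∈ A
  · simp only [piecewise_eq_of_mem _ _ _ h]
    exact continuous_const
  · simp only [piecewise_eq_of_notMem _ _ _ h]
    exact continuous_apply i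

theorem continuous_piecewise_right (A : Set J) [∀ i, Decidable (i ∈ A)] (a : J → ℝ) :
    Continuous (fun z : J → ℝ => A.piecewise z a) := by
  refine continuous_pi fun i => ?_
  by_cases h : i ∈ A
  · simp only [piecewise_eq_of_mem _ _ _ h]
    exact continuous_apply i
  · simp only [piecewise_eq_of_notMem _ _ _ h]
    exact continuous_const

/-- The closure of an open set depends on countably many coordinates. -/
theorem exists_countable_closure {G : Set (J → ℝ)} (hG : IsOpen G) :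
    ∃ A : Set J, A.Countable ∧ ∀ z ∈ closure G, ∀ z', EqOn z' z A → z' ∈ closure G := by
  classical
  have h1 : ∀ u ∈ G, ∃ S : Finset J, ∀ v, EqOn v u S → v ∈ G :=
    fun u hu => exists_finset_of_mem_nhds (hG.mem_nhds hu)
  choose! S hS using h1
  have step : ∀ A : Set J, A.Countable → ∃ B : Set J, B.Countable ∧ A ⊆ B ∧
      ∃ E ⊆ G, (∀ u ∈ E, (S u : Set J) ⊆ B) ∧
        A.domRestrict '' G ⊆ closure (A.domRestrict '' E : Set (A → ℝ)) := by
    intro A hA
    have := hA.to_subtype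
    obtain ⟨t, ht1, ht2, ht3⟩ := (TopologicalSpace.IsSeparable.of_separableSpace
      (A.domRestrict '' G : Set (A → ℝ))).exists_countable_dense_subset
    obtain ⟨E, hE1, hEi, hE3⟩ := Set.SurjOn.exists_subset_injOn_image_eq
      (show SurjOn A.domRestrict G t from ht1)
    have hE2 : E.Countable := countable_of_injective_of_countable_image hEi (hE3 ▸ ht2)
    refine ⟨A ∪ ⋃ u ∈ E, (S u : Set J), hA.union (hE2.biUnion fun u _ => (S u).countable_toSet),
      subset_union_left, E, hE1, ?_, by rwa [hE3]⟩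
    intro u hu i hi
    exact Or.inr (mem_biUnion hu hi)
  choose! nxt hn1 hn2 E hE1 hE2 hE3 using step
  let s : ℕ → Set J := fun n => nxt^[n] ∅
  have hs0 : ∀ n, s (n + 1) = nxt (s n) := fun n => Function.iterate_succ_apply' _ _ _
  have hsc : ∀ n, (s n).Countable := by
    intro n
    induction n with
    | zero => exact countable_empty
    | succ n ih => rw [hs0]; exact hn1 _ ih
  have hmono : Monotone s := monotone_nat_of_le_succ fun n => by
    rw [hs0]; exact hn2 _ (hsc n)
  refine ⟨⋃ n, s n, countable_iUnion hsc, fun z hz z' hz' => ?_⟩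
  rw [mem_closure_iff_nhds]
  intro V hV
  rw [nhds_pi, Filter.mem_pi'] at hV
  obtain ⟨F, t, ht, hF⟩ := hV
  obtain ⟨n, hn⟩ : ∃ n, (F : Set J) ∩ (⋃ n, s n) ⊆ s n := by
    have hfin : ((F : Set J) ∩ (⋃ n, s n)).Finite := F.finite_toSet.inter_of_left _
    obtain ⟨n, hn⟩ := Directed.exists_mem_subset_of_finset_subset_biUnion
      (f := s) hmono.directed_le (s := hfin.toFinset) (by simp)
    exact ⟨n, by simpa using hn⟩
  let O : Set (s n → ℝ) := {y | ∀ i : s n, i.1 ∈ F → y i ∈ interior (t i)}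
  have hO : IsOpen O := by
    have : O = ⋂ i ∈ {i : s n | i.1 ∈ F}, (fun y : s n → ℝ => y i) ⁻¹' interior (t i) := by
      ext y
      simp [O]
    rw [this]
    refine Set.Finite.isOpen_biInter ?_ fun i _ => isOpen_interior.preimage (continuous_apply i)
    exact F.finite_toSet.preimage Subtype.val_injective.injOn
  have hzO : (s n).domRestrict z ∈ O := by
    intro i hi
    have : z i = z' i := (hz' (mem_iUnion.2 ⟨n, i.2⟩)).symm
    simp only [domRestrict_apply, this]
    exact mem_interior_iff_mem_nhds.2 (ht i)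
  have hcont : Continuous ((s n).domRestrict : (J → ℝ) → (s n → ℝ)) :=
    continuous_pi fun i => continuous_apply _
  have h2 : (s n).domRestrict z ∈ closure ((s n).domRestrict '' E (s n) : Set (s n → ℝ)) := by
    have := image_closure_subset_closure_image hcont (mem_image_of_mem _ hz)
    exact closure_minimal (hE3 _ (hsc n)) isClosed_closure this
  obtain ⟨_, hy, u, hu, rfl⟩ := mem_closure_iff.1 h2 O hO hzO
  refine ⟨(⋃ n, s n).piecewise u z', hF fun i hi => ?_, hS u (hE1 _ (hsc n) hu) _ fun i hi => ?_⟩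
  · by_cases h : i ∈ ⋃ n, s n
    · rw [piecewise_eq_of_mem _ _ _ h]
      exact interior_subset (hy ⟨i, hn ⟨hi, h⟩⟩ hi)
    · rw [piecewise_eq_of_notMem _ _ _ h]
      exact mem_of_mem_nhds (ht i)
  · apply piecewise_eq_of_mem
    exact mem_iUnion.2 ⟨n + 1, by rw [hs0]; exact hE2 _ (hsc n) u hu hi⟩

theorem length_le_card {Y : Type*} (l : List (Set Y)) (hl : l.Pairwise Disjoint) (s : Finset Y)
    (h : ∀ C ∈ l, ∃ w ∈ C, w ∈ s) : l.length ≤ s.card := by
  classical
  induction l generalizing s with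
  | nil => simp
  | cons C l ih =>
    rw [List.pairwise_cons] at hl
    obtain ⟨w, hw1, hw2⟩ := h C (by simp)
    have := ih hl.2 (s.erase w) (fun D hD => by
      obtain ⟨v, hv1, hv2⟩ := h D (by simp [hD])
      refine ⟨v, hv1, Finset.mem_erase.2 ⟨?_, hv2⟩⟩
      rintro rfl
      exact Set.disjoint_left.1 (hl.1 D hD) hw1 hv1)
    rw [Finset.card_erase_of_mem hw2] at this
    have := Finset.card_pos.2 ⟨w, hw2⟩
    simp only [List.length_cons]
    omega

theorem mem_closure_interior_of_cover {K ι : Type*} [TopologicalSpace K] (s : Finset ι)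
    (C : ι → Set K) (hC : ∀ i, IsClosed (C i)) (hcov : ∀ z, ∃ i ∈ s, z ∈ C i) (z : K) :
    ∃ i ∈ s, z ∈ closure (interior (C i)) := by
  classical
  have h1 : ∀ t : Finset ι, interior (⋃ i ∈ t, C i) ⊆ ⋃ i ∈ t, closure (interior (C i)) := by
    intro t
    induction t using Finset.induction_on with
    | empty => simp
    | insert a t _ ih =>
      rw [Finset.set_biUnion_insert, Finset.set_biUnion_insert]
      intro x hx
      by_cases hxa : x ∈ closure (interior (⋃ i ∈ t, C i))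
      · right
        have hcl : IsClosed (⋃ i ∈ t, closure (interior (C i))) :=
          isClosed_biUnion_finset fun _ _ => isClosed_closure
        exact closure_minimal ih hcl hxa
      · left
        apply subset_closure
        have hU : interior (C a ∪ ⋃ i ∈ t, C i) ∩ (closure (interior (⋃ i ∈ t, C i)))ᶜ ⊆ C a := by
          rintro y ⟨hy1, hy2⟩
          rcases (hC a).interior_union_left hy1 with h | h
          · exact h
          · exact absurd (subset_closure h) hy2
        exact interior_maximal hU (isOpen_interior.inter isClosed_closure.isOpen_compl) ⟨hx, hxa⟩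
  have h2 : (⋃ i ∈ s, C i) = univ := by
    rw [eq_univ_iff_forall]
    intro x
    simpa using hcov x
  have := h1 s (by rw [h2, interior_univ]; exact mem_univ z)
  simpa using this

/-- A closed relation with nonempty finite fibres on a face has a continuous selection on a
smaller face. -/
theorem exists_selection {Y : Type*} [TopologicalSpace Y] [CompactSpace Y] [T2Space Y]
    (W : (J → ℝ) → Y → Prop) (hW : IsClosed {q : (J → ℝ) × Y | W q.1 q.2})
    (A0 : Set J) (a0 : J → ℝ) (hA0 : A0.Countable)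
    (hne : ∀ z, EqOn z a0 A0 → ∃ w, W z w) (hfin : ∀ z, EqOn z a0 A0 → {w | W z w}.Finite) :
    ∃ (A : Set J) (a : J → ℝ), A.Countable ∧ A0 ⊆ A ∧ EqOn a a0 A0 ∧
      ∃ p : (J → ℝ) → Y, Continuous p ∧ ∀ z, EqOn z a A → W z (p z) := by
  classical
  let P : Set J → (J → ℝ) → ℕ → Prop := fun A a k => A0 ⊆ A ∧ EqOn a a0 A0 ∧
    ∃ l : List (Set Y), l.length = k ∧ l.Pairwise Disjoint ∧
      ∀ C ∈ l, IsClosed C ∧ ∀ z, EqOn z a A → ∃ w ∈ C, W z w
  obtain ⟨A, a, k, hA, hA0A, haa0, hk, ⟨-, -, l, hl1, hl2, hl3⟩, hterm⟩ :=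
    exists_terminal P A0 a0 1 hA0
      ⟨subset_rfl, fun _ _ => rfl, [univ], rfl, by simp, by simpa using hne⟩
      (fun z hz => ⟨(hfin z hz).toFinset.card + 1, fun A a k hza hk ⟨_, _, l, hl1, hl2, hl3⟩ => by
        have := length_le_card l hl2 (hfin z hz).toFinset (fun C hC => by
          obtain ⟨w, hw1, hw2⟩ := (hl3 C hC).2 z hza
          exact ⟨w, hw1, by simpa using hw2⟩)
        omega⟩)
  obtain ⟨C0, l', rfl⟩ : ∃ C0 l', l = C0 :: l' := by
    cases l with
    | nil => simp at hl1; omega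
    | cons C0 l' => exact ⟨C0, l', rfl⟩
  rw [List.pairwise_cons] at hl2
  obtain ⟨hC0, hC0f⟩ := hl3 C0 (by simp)
  let ρ : (J → ℝ) → (J → ℝ) := fun z => A.piecewise a z
  have hρ : Continuous ρ := continuous_piecewise_left A a
  have hρ1 : ∀ z, EqOn (ρ z) a A := fun z i hi => piecewise_eq_of_mem _ _ _ hi
  have hρ2 : ∀ z, EqOn z a A → ρ z = z := by
    intro z hz
    funext i
    by_cases h : i ∈ A
    · exact (hρ1 z h).trans (hz h).symm
    · exact piecewise_eq_of_notMem _ _ _ h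
  let pr : Set Y → Set (J → ℝ) := fun N => {z | ∃ w ∈ N, W (ρ z) w ∧ w ∈ C0}
  have hW' : IsClosed {q : (J → ℝ) × Y | W (ρ q.1) q.2 ∧ q.2 ∈ C0} :=
    (hW.preimage (f := fun q : (J → ℝ) × Y => (ρ q.1, q.2))
      ((hρ.comp continuous_fst).prodMk continuous_snd)).inter (hC0.preimage continuous_snd)
  have hpr : ∀ N, IsClosed N → IsClosed (pr N) := by
    intro N hN
    have := isClosedMap_fst_of_compactSpace _ (hW'.inter (hN.preimage continuous_snd))
    convert this using 1
    ext z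
    simp only [pr, mem_ofPred_eq, mem_image, mem_inter_iff, mem_preimage, Prod.exists,
      exists_and_right, exists_eq_right]
    constructor
    · rintro ⟨w, h1, h2, h3⟩
      exact ⟨w, ⟨h2, h3⟩, h1⟩
    · rintro ⟨w, ⟨h2, h3⟩, h1⟩
      exact ⟨w, h1, h2, h3⟩
  have notwo : ∀ (B : Set J) (b : J → ℝ) (D1 D2 : Set Y), B.Countable → IsClosed D1 →
      IsClosed D2 → Disjoint D1 D2 → (∀ z, EqOn z b B → z ∈ pr D1) →
      (∀ z, EqOn z b B → z ∈ pr D2) → False := by
    intro B b D1 D2 hB hD1 hD2 hD h1 h2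
    have key : ∀ D : Set Y, (∀ z, EqOn z b B → z ∈ pr D) →
        ∀ z, EqOn z (ρ b) (A ∪ B) → ∃ w ∈ D ∩ C0, W z w := by
      intro D hD z hz
      have e1 : EqOn (A.piecewise b z) b B := by
        intro i hi
        by_cases h : i ∈ A
        · exact piecewise_eq_of_mem _ _ _ h
        · rw [piecewise_eq_of_notMem _ _ _ h, hz (Or.inr hi)]
          exact piecewise_eq_of_notMem _ _ _ h
      have e2 : ρ (A.piecewise b z) = z := by
        funext i
        by_cases h : i ∈ A
        · rw [hρ1 _ h, hz (Or.inl h), hρ1 _ h]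
        · simp only [ρ, piecewise_eq_of_notMem _ _ _ h]
      obtain ⟨w, hw1, hw2, hw3⟩ := hD _ e1
      rw [e2] at hw2
      exact ⟨w, ⟨hw1, hw3⟩, hw2⟩
    refine hterm (A ∪ B) (ρ b) (hA.union hB) subset_union_left (hρ1 b)
      ⟨hA0A.trans subset_union_left, fun i hi => (hρ1 b (hA0A hi)).trans (haa0 hi),
        (D1 ∩ C0) :: (D2 ∩ C0) :: l', by simp [← hl1], ?_, ?_⟩
    · simp only [List.pairwise_cons, List.mem_cons, forall_eq_or_imp]
      exact ⟨⟨hD.mono inter_subset_left inter_subset_left,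
        fun C hC => (hl2.1 C hC).mono_left inter_subset_right⟩,
        fun C hC => (hl2.1 C hC).mono_left inter_subset_right, hl2.2⟩
    · simp only [List.mem_cons, forall_eq_or_imp]
      refine ⟨⟨hD1.inter hC0, key D1 h1⟩, ⟨hD2.inter hC0, key D2 h2⟩, fun C hC => ?_⟩
      obtain ⟨e1, e2⟩ := hl3 C (by simp [hC])
      exact ⟨e1, fun z hz => e2 z fun i hi => (hz (Or.inl hi)).trans (hρ1 b hi)⟩
  let Th : (J → ℝ) → Y → Prop := fun z w =>
    ∀ N, IsClosed N → N ∈ 𝓝 w → z ∈ closure (interior (pr N))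
  have hTh1 : ∀ z w, Th z w → W (ρ z) w := by
    intro z w h
    by_contra hcon
    have : {q : (J → ℝ) × Y | W (ρ q.1) q.2 ∧ q.2 ∈ C0}ᶜ ∈ 𝓝 (z, w) :=
      hW'.isOpen_compl.mem_nhds (fun hh => hcon hh.1)
    rw [mem_nhds_prod_iff] at this
    obtain ⟨U, hU, V, hV, hUV⟩ := this
    obtain ⟨N, hN1, hN2, hN3⟩ := exists_mem_nhds_isClosed_subset hV
    obtain ⟨y, hy1, hy2⟩ := mem_closure_iff_nhds.1 (h N hN2 hN1) U hU
    obtain ⟨v, hv1, hv2⟩ := interior_subset hy2
    exact hUV (show (y, v) ∈ U ×ˢ V from ⟨hy1, hN3 hv1⟩) hv2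
  have hTh2 : ∀ z, ∃ w, Th z w := by
    intro z
    by_contra hcon
    simp only [Th] at hcon
    push Not at hcon
    choose N hN1 hN2 hN3 using hcon
    obtain ⟨t, -, ht⟩ := isCompact_univ.elim_nhds_subcover N (fun w _ => hN2 w)
    obtain ⟨w, -, hw⟩ := mem_closure_interior_of_cover t (fun w => pr (N w))
      (fun w => hpr _ (hN1 w)) (fun y => by
        obtain ⟨v, hv1, hv2⟩ := hC0f (ρ y) (hρ1 y)
        have := ht (mem_univ v)
        simp only [mem_iUnion] at this
        obtain ⟨w, hw1, hw2⟩ := this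
        exact ⟨w, hw1, v, hw2, hv2, hv1⟩) z
    exact hN3 w hw
  have hTh3 : ∀ z w1 w2, Th z w1 → Th z w2 → w1 = w2 := by
    intro z w1 w2 h1 h2
    by_contra hne'
    obtain ⟨N1, ⟨hN1, hN1'⟩, N2, ⟨hN2, hN2'⟩, hd⟩ :=
      ((closed_nhds_basis w1).disjoint_iff (closed_nhds_basis w2)).1 (disjoint_nhds_nhds.2 hne')
    obtain ⟨B1, hB1, e1⟩ := exists_countable_closure (isOpen_interior (s := pr N1))
    obtain ⟨B2, hB2, e2⟩ := exists_countable_closure (isOpen_interior (s := pr N2))
    refine notwo (B1 ∪ B2) z N1 N2 (hB1.union hB2) hN1' hN2' hd (fun y hy => ?_) (fun y hy => ?_)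
    · exact closure_minimal interior_subset (hpr _ hN1')
        (e1 z (h1 _ hN1' hN1) y (hy.mono subset_union_left))
    · exact closure_minimal interior_subset (hpr _ hN2')
        (e2 z (h2 _ hN2' hN2) y (hy.mono subset_union_right))
  have hTh4 : IsClosed {q : (J → ℝ) × Y | Th q.1 q.2} := by
    rw [← closure_subset_iff_isClosed]
    rintro ⟨z, w⟩ hzw N hN1 hN2
    rw [← closure_closure, mem_closure_iff_nhds]
    intro U hU
    obtain ⟨⟨y, v⟩, ⟨hy, hv⟩, hyv⟩ := mem_closure_iff_nhds.1 hzw (U ×ˢ interior N)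
      (prod_mem_nhds hU (interior_mem_nhds.2 hN2))
    exact ⟨y, hy, hyv N hN1 (mem_interior_iff_mem_nhds.1 hv)⟩
  choose p hp using hTh2
  refine ⟨A, a, hA, hA0A, haa0, p, ?_, fun z hz => ?_⟩
  · rw [continuous_iff_isClosed]
    intro N hN
    have := isClosedMap_fst_of_compactSpace _ (hTh4.inter (hN.preimage continuous_snd))
    convert this using 1
    ext z
    simp only [mem_preimage, mem_image, mem_inter_iff, mem_ofPred_eq, Prod.exists,
      exists_and_right, exists_eq_right]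
    constructor
    · intro h
      exact ⟨p z, hp z, h⟩
    · rintro ⟨w, h1, h2⟩
      rwa [hTh3 z _ _ (hp z) h1]
  · have := hTh1 z _ (hp z)
    rwa [hρ2 z hz] at this

end Pool.Agent.MP_a58584_gt

end

-- part MP_a58584_gt.Root
section

/-!
A root (Delta-system) lemma for countably complete filters, and cubes inside continuous images
of products of real lines.
-/

set_option autoImplicit false

namespace Pool.Agent.MP_a58584_gt

open Set Filter Topology

universe u

variable {J Ω : Type*}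

theorem exists_frequently_of_countable {β : Type*} [Countable β] (F : Filter Ω) [NeBot F]
    [CountableInterFilter F] (p : β → Ω → Prop) (h : ∀ᶠ ω in F, ∃ b, p b ω) :
    ∃ b, ∃ᶠ ω in F, p b ω := by
  by_contra hcon
  push Not at hcon
  have h2 : ∀ᶠ ω in F, ∀ b, ¬ p b ω := eventually_countable_forall.2 hcon
  obtain ⟨ω, ⟨b, hb⟩, h3⟩ := (h.and h2).exists
  exact h3 b hb

theorem exists_root_aux (n : ℕ) : ∀ (F : Filter Ω) [NeBot F] [CountableInterFilter F]
    (S : Ω → Finset J), (∀ᶠ ω in F, (S ω).card ≤ n) →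
    ∃ F' : Filter Ω, F' ≤ F ∧ NeBot F' ∧ CountableInterFilter F' ∧
      ∃ R : Finset J, ∀ i ∉ R, ∀ᶠ ω in F', i ∉ S ω := by
  classical
  induction n with
  | zero =>
    intro F _ _ S hS
    refine ⟨F, le_rfl, inferInstance, inferInstance, ∅, fun i _ => hS.mono fun ω h => ?_⟩
    have : S ω = ∅ := by simpa using h
    simp [this]
  | succ n ih =>
    intro F _ _ S hS
    by_cases h : ∃ i, ∃ᶠ ω in F, i ∈ S ω
    · obtain ⟨i, hi⟩ := h
      have : NeBot (F ⊓ 𝓟 {ω | i ∈ S ω}) := frequently_iff_neBot.1 hi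
      obtain ⟨F', h1, h2, h3, R, hR⟩ := ih (F ⊓ 𝓟 {ω | i ∈ S ω}) (fun ω => (S ω).erase i) (by
        rw [eventually_inf_principal]
        refine hS.mono fun ω h1 h2 => ?_
        rw [Finset.card_erase_of_mem h2]
        omega)
      refine ⟨F', h1.trans inf_le_left, h2, h3, insert i R, fun j hj => ?_⟩
      rw [Finset.mem_insert, not_or] at hj
      refine (hR j hj.2).mono fun ω h1 h2 => h1 (Finset.mem_erase.2 ⟨hj.1, h2⟩)
    · push Not at h
      exact ⟨F, le_rfl, inferInstance, inferInstance, ∅, fun i _ => h i⟩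

theorem exists_rat_Icc {x : ℝ} {t : Set ℝ} (h : t ∈ 𝓝 x) :
    ∃ c : ℚ × ℚ, x ∈ Icc (c.1 : ℝ) c.2 ∧ Icc (c.1 : ℝ) c.2 ⊆ t := by
  obtain ⟨ε, hε, h2⟩ := Metric.mem_nhds_iff.1 h
  obtain ⟨l, hl1, hl2⟩ := exists_rat_btwn (show x - ε < x by linarith)
  obtain ⟨r, hr1, hr2⟩ := exists_rat_btwn (show x < x + ε by linarith)
  refine ⟨(l, r), ⟨hl2.le, hr1.le⟩, fun y hy => h2 ?_⟩
  rw [Real.ball_eq_Ioo]
  exact ⟨lt_of_lt_of_le hl1 hy.1, lt_of_le_of_lt hy.2 hr2⟩

theorem exists_root (F : Filter Ω) [NeBot F] [CountableInterFilter F] (a b : Ω → J → ℝ)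
    (hab : ∀ i, ∀ᶠ ω in F, a ω i = b ω i) (O O' : Ω → Set (J → ℝ))
    (hO : ∀ᶠ ω in F, O ω ∈ 𝓝 (a ω) ∧ O' ω ∈ 𝓝 (b ω)) :
    ∃ F' : Filter Ω, F' ≤ F ∧ NeBot F' ∧ CountableInterFilter F' ∧
      ∃ (G : Set (J → ℝ)) (R : Finset J) (S : Ω → Finset J), IsClosed G ∧
        (∀ y ∈ G, ∀ y', EqOn y' y R → y' ∈ G) ∧ (∀ i, ∀ᶠ ω in F', i ∉ S ω) ∧
        ∀ᶠ ω in F', a ω ∈ G ∧ ∀ y ∈ G,
          (EqOn y (a ω) (S ω) → y ∈ O ω) ∧ (EqOn y (b ω) (S ω) → y ∈ O' ω) := by
  classical
  have h1 : ∀ (x : J → ℝ) (U : Set (J → ℝ)), ∃ (D : Finset J) (t : J → Set ℝ),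
      (∀ i, t i ∈ 𝓝 (x i)) ∧ (U ∈ 𝓝 x → Set.pi (D : Set J) t ⊆ U) := by
    intro x U
    by_cases h : U ∈ 𝓝 x
    · rw [nhds_pi, Filter.mem_pi'] at h
      obtain ⟨D, t, h1, h2⟩ := h
      exact ⟨D, t, h1, fun _ => h2⟩
    · exact ⟨∅, fun _ => univ, fun _ => univ_mem, fun h' => absurd h' h⟩
  choose D t ht hD using h1
  let S0 : Ω → Finset J := fun ω => D (a ω) (O ω) ∪ D (b ω) (O' ω)
  obtain ⟨n, hn⟩ := exists_frequently_of_countable F (fun (n : ℕ) ω => (S0 ω).card ≤ n)
    (Eventually.of_forall fun ω => ⟨_, le_rfl⟩)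
  have : NeBot (F ⊓ 𝓟 {ω | (S0 ω).card ≤ n}) := frequently_iff_neBot.1 hn
  obtain ⟨F1, hF1, _, _, R, hR⟩ := exists_root_aux n (F ⊓ 𝓟 {ω | (S0 ω).card ≤ n}) S0
    (by rw [eventually_inf_principal]; exact Eventually.of_forall fun _ h => h)
  replace hF1 : F1 ≤ F := hF1.trans inf_le_left
  let p : (R → ℚ × ℚ) → Ω → Prop := fun c ω => ∀ i : R, a ω i ∈ Icc ((c i).1 : ℝ) (c i).2 ∧
    Icc ((c i).1 : ℝ) (c i).2 ⊆ t (a ω) (O ω) i ∩ t (b ω) (O' ω) i
  obtain ⟨c, hc⟩ := exists_frequently_of_countable F1 p (by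
    have : ∀ᶠ ω in F1, ∀ i : R, a ω i = b ω i :=
      eventually_countable_forall.2 fun i => (hab i).filter_mono hF1
    refine this.mono fun ω h => ?_
    have h2 : ∀ i : R, ∃ c : ℚ × ℚ, a ω i ∈ Icc (c.1 : ℝ) c.2 ∧
        Icc (c.1 : ℝ) c.2 ⊆ t (a ω) (O ω) i ∩ t (b ω) (O' ω) i := fun i =>
      exists_rat_Icc (inter_mem (ht _ _ _) (by rw [h i]; exact ht _ _ _))
    choose c hc using h2
    exact ⟨c, hc⟩)
  have hne : NeBot (F1 ⊓ 𝓟 {ω | p c ω}) := frequently_iff_neBot.1 hc
  refine ⟨F1 ⊓ 𝓟 {ω | p c ω}, inf_le_left.trans hF1, hne, inferInstance,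
    {y | ∀ i : R, y i ∈ Icc ((c i).1 : ℝ) (c i).2}, R, fun ω => S0 ω \ R, ?_, ?_, ?_, ?_⟩
  · simp only [ofPred_forall]
    exact isClosed_iInter fun i => isClosed_Icc.preimage (continuous_apply _)
  · intro y hy y' hy' i
    rw [hy' i.2]
    exact hy i
  · intro i
    by_cases hi : i ∈ R
    · exact Eventually.of_forall fun ω => by simp [hi]
    · exact ((hR i hi).filter_mono inf_le_left).mono fun ω h => by simp [h]
  · rw [eventually_inf_principal]
    refine (hO.filter_mono hF1).mono fun ω hω hp => ⟨fun i => (hp i).1, fun y hy => ⟨?_, ?_⟩⟩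
    · intro h
      refine hD _ _ hω.1 fun i hi => ?_
      by_cases hiR : i ∈ R
      · exact ((hp ⟨i, hiR⟩).2 (hy ⟨i, hiR⟩)).1
      · rw [h (by simp only [S0]; simp [hiR, Finset.mem_coe.1 hi])]
        exact mem_of_mem_nhds (ht _ _ _)
    · intro h
      refine hD _ _ hω.2 fun i hi => ?_
      by_cases hiR : i ∈ R
      · exact ((hp ⟨i, hiR⟩).2 (hy ⟨i, hiR⟩)).2
      · rw [h (by simp only [S0]; simp [hiR, Finset.mem_coe.1 hi])]
        exact mem_of_mem_nhds (ht _ _ _)

theorem exists_agree_filter {β : Type*} (a b : Ω → J → β)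
    (h : ∀ B : Set J, B.Countable → ∃ ω, EqOn (a ω) (b ω) B) :
    ∃ F : Filter Ω, NeBot F ∧ CountableInterFilter F ∧ ∀ i, ∀ᶠ ω in F, a ω i = b ω i := by
  refine ⟨countableGenerate (range fun i => {ω | a ω i = b ω i}), ?_, inferInstance, fun i => ?_⟩
  · rw [← forall_mem_nonempty_iff_neBot]
    intro s hs
    obtain ⟨S, hS1, hS2, hS3⟩ := mem_countableGenerate_iff.1 hs
    rw [← image_univ] at hS1
    obtain ⟨B, -, hBi, hB⟩ := Set.SurjOn.exists_subset_injOn_image_eq
      (show SurjOn (fun i => {ω | a ω i = b ω i}) univ S from hS1)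
    obtain ⟨ω, hω⟩ := h B (countable_of_injective_of_countable_image hBi (hB ▸ hS2))
    refine ⟨ω, hS3 ?_⟩
    rw [← hB]
    rintro _ ⟨i, hi, rfl⟩
    exact hω hi
  · exact mem_countableGenerate_iff.2 ⟨{{ω | a ω i = b ω i}}, by simp, by simp, by simp⟩

theorem exists_uncountable_disjoint (F : Filter Ω) [NeBot F] [CountableInterFilter F]
    (S : Ω → Finset J) (hS : ∀ i, ∀ᶠ ω in F, i ∉ S ω) (T : Set Ω) (hT : T ∈ F)
    (hne : ∀ ω ∈ T, (S ω).Nonempty) :
    ∃ M ⊆ T, ¬ M.Countable ∧ M.Pairwise (fun ω ω' => Disjoint (S ω) (S ω')) := by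
  obtain ⟨M, hM⟩ := zorn_subset
    {M : Set Ω | M ⊆ T ∧ M.Pairwise (fun ω ω' => Disjoint (S ω) (S ω'))} (by
      intro c hc hchain
      refine ⟨⋃₀ c, ⟨sUnion_subset fun s hs => (hc hs).1, ?_⟩, fun s hs => subset_sUnion_of_mem hs⟩
      exact (hchain.pairwise_sUnion).2 fun s hs => (hc hs).2)
  refine ⟨M, hM.prop.1, fun hc => ?_, hM.prop.2⟩
  have hA : (⋃ ω ∈ M, (S ω : Set J)).Countable := hc.biUnion fun ω _ => (S ω).countable_toSet
  have h1 : ∀ᶠ ω in F, ∀ i ∈ (⋃ ω ∈ M, (S ω : Set J)), i ∉ S ω :=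
    (eventually_countable_ball hA).2 fun i _ => hS i
  obtain ⟨ω, h2, h3⟩ := (h1.and hT).exists
  have h4 : ∀ ω' ∈ M, Disjoint (S ω) (S ω') := by
    intro ω' hω'
    rw [Finset.disjoint_left]
    intro i hi hi'
    exact h2 i (mem_biUnion hω' hi') hi
  have h5 : insert ω M ⊆ M := by
    apply hM.le_of_ge _ (subset_insert _ _)
    refine ⟨insert_subset h3 hM.prop.1, hM.prop.2.insert fun ω' hω' _ => ?_⟩
    exact ⟨h4 ω' hω', (h4 ω' hω').symm⟩
  have h6 := h4 ω (h5 (mem_insert _ _))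
  rw [disjoint_self] at h6
  exact (hne ω h3).ne_empty h6

/-- A continuous image of a product of lines that does not depend on countably many coordinates
contains a Tychonoff cube of weight aleph one. -/
theorem exists_cube_embedding {J : Type u} {X : Type*} [TopologicalSpace X] [T2Space X]
    (q : (J → ℝ) → X) (hq : Continuous q)
    (hdep : ∀ B : Set J, B.Countable → ∃ z z', EqOn z z' B ∧ q z ≠ q z')
    (I : Type u) (hI : Cardinal.mk I = Cardinal.aleph 1) :
    ∃ h : (I → unitInterval) → X, IsEmbedding h := by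
  classical
  let Ω := {zz : (J → ℝ) × (J → ℝ) // q zz.1 ≠ q zz.2}
  let a : Ω → J → ℝ := fun ω => ω.1.1
  let b : Ω → J → ℝ := fun ω => ω.1.2
  obtain ⟨F, _, _, hF⟩ := exists_agree_filter a b (fun B hB => by
    obtain ⟨z, z', h1, h2⟩ := hdep B hB
    exact ⟨⟨(z, z'), h2⟩, h1⟩)
  have h1 : ∀ ω : Ω, ∃ U V : Set X, IsOpen U ∧ IsOpen V ∧ q (a ω) ∈ U ∧ q (b ω) ∈ V ∧
      Disjoint U V := fun ω => t2_separation ω.2
  choose U V hU hV haU hbV hUV using h1
  obtain ⟨F', -, _, _, G, R, S, -, hG, hS, hgood⟩ := exists_root F a b hF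
    (fun ω => q ⁻¹' U ω) (fun ω => q ⁻¹' V ω) (Eventually.of_forall fun ω =>
      ⟨((hU ω).preimage hq).mem_nhds (haU ω), ((hV ω).preimage hq).mem_nhds (hbV ω)⟩)
  have hR : ∀ᶠ ω in F', ∀ i ∈ (R : Set J), i ∉ S ω :=
    (eventually_countable_ball R.countable_toSet).2 fun i _ => hS i
  obtain ⟨M, hM1, hM2, hM3⟩ := exists_uncountable_disjoint F' S hS _ (hgood.and hR) (by
    rintro ω ⟨⟨h1, h2⟩, -⟩
    rw [Finset.nonempty_iff_ne_empty]
    intro h
    have := h2 _ h1
    rw [h] at this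
    simp only [Finset.coe_empty, eqOn_empty, forall_const] at this
    exact Set.disjoint_left.1 (hUV ω) this.1 this.2)
  obtain ⟨μ⟩ : Nonempty (I × (ℚ × ℚ) ↪ M) := by
    rw [← Cardinal.le_def]
    have h1 : Cardinal.aleph 1 ≤ Cardinal.mk M := by
      rw [← not_lt, ← Cardinal.countable_iff_lt_aleph_one]
      exact hM2
    refine le_trans (le_of_eq ?_) h1
    simp [hI]
  obtain ⟨ω0, hω0, -⟩ := (hgood.and hR).exists
  let τ : I × (ℚ × ℚ) → (I → unitInterval) → ℝ := fun m s =>
    max 0 (min 1 (((s m.1 : ℝ) - m.2.1) / (m.2.2 - m.2.1)))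
  have hτ : ∀ m, Continuous (τ m) := fun m => by
    simp only [τ]
    fun_prop
  let e : (I → unitInterval) → J → ℝ := fun s i =>
    if h : ∃ m, i ∈ S (μ m) then
      τ h.choose s * a (μ h.choose) i + (1 - τ h.choose s) * b (μ h.choose) i
    else a ω0 i
  have he : Continuous e := by
    refine continuous_pi fun i => ?_
    by_cases h : ∃ m, i ∈ S (μ m)
    · simp only [e, dif_pos h]
      have := hτ h.choose
      fun_prop
    · simp only [e, dif_neg h]
      exact continuous_const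
  have he1 : ∀ s m, ∀ i ∈ S (μ m), e s i = τ m s * a (μ m) i + (1 - τ m s) * b (μ m) i := by
    intro s m i hi
    have h : ∃ m, i ∈ S (μ m) := ⟨m, hi⟩
    have h2 : h.choose = m := by
      by_contra hne
      have h3 : (μ h.choose : Ω) ≠ μ m := fun h4 => hne (μ.injective (Subtype.ext h4))
      exact Finset.disjoint_left.1 (hM3 (μ _).2 (μ _).2 h3) h.choose_spec hi
    simp only [e, dif_pos h, h2]
  have he2 : ∀ s, e s ∈ G := by
    intro s
    refine hG _ hω0.1 _ fun i hi => ?_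
    have h : ¬ ∃ m, i ∈ S (μ m) := by
      rintro ⟨m, hm⟩
      exact (hM1 (μ m).2).2 i hi hm
    simp only [e, dif_neg h]
  have key : ∀ s s' : I → unitInterval, ∀ ι, s ι < s' ι → q (e s) ≠ q (e s') := by
    intro s s' ι hlt
    have hlt' : (s ι : ℝ) < s' ι := hlt
    obtain ⟨c, hc1, hc2⟩ := exists_rat_btwn hlt'
    obtain ⟨d, hd1, hd2⟩ := exists_rat_btwn hc2
    have hpos : (0 : ℝ) < d - c := by linarith
    have h0 : τ (ι, (c, d)) s = 0 := by
      apply max_eq_left
      refine (min_le_right _ _).trans (div_nonpos_of_nonpos_of_nonneg ?_ hpos.le)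
      simp only
      linarith
    have h1 : τ (ι, (c, d)) s' = 1 := by
      have : (1 : ℝ) ≤ ((s' ι : ℝ) - c) / (d - c) := by
        rw [le_div_iff₀ hpos]
        linarith
      simp only [τ, min_eq_left this]
      simp
    obtain ⟨⟨-, hg⟩, -⟩ := hM1 (μ (ι, (c, d))).2
    have h2 := (hg _ (he2 s)).2 (fun i hi => by rw [he1 s _ i hi, h0]; simp)
    have h3 := (hg _ (he2 s')).1 (fun i hi => by rw [he1 s' _ i hi, h1]; simp)
    intro heq
    rw [mem_preimage] at h2 h3
    rw [heq] at h2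
    exact Set.disjoint_left.1 (hUV _) h3 h2
  refine ⟨q ∘ e, ((hq.comp he).isClosedEmbedding ?_).isEmbedding⟩
  intro s s' hss
  by_contra hne
  obtain ⟨ι, hι⟩ := Function.ne_iff.1 hne
  rcases lt_or_gt_of_ne hι with h | h
  · exact key s s' ι h hss
  · exact key s' s ι h hss.symm

end Pool.Agent.MP_a58584_gt

end

-- part MP_a58584_gt.Ext
section

/-!
A t-extral space is compact and t-embedded in a product of lines; finite supports.
-/

set_option autoImplicit false

namespace Pool.Agent.MP_a58584_gt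

open Set Filter Topology

universe u

/-- continuous real functions with the topology of pointwise convergence -/
abbrev CP (X : Type u) [TopologicalSpace X] : Type u := {f : X → ℝ // Continuous f}

variable {X : Type u} [TopologicalSpace X]

/-- the zero function -/
def cpZero (X : Type u) [TopologicalSpace X] : CP X := ⟨fun _ => 0, continuous_const⟩

theorem exists_finset_cp {s : Set (CP X)} {f : CP X} (h : s ∈ 𝓝 f) :
    ∃ G : Finset X, ∀ g : CP X, EqOn g.1 f.1 G → g ∈ s := by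
  rw [nhds_induced, mem_comap] at h
  obtain ⟨t, ht, hts⟩ := h
  obtain ⟨G, hG⟩ := exists_finset_of_mem_nhds ht
  exact ⟨G, fun g hg => hts (hG _ hg)⟩

/-- the canonical map to a product of lines -/
def emb (X : Type u) [TopologicalSpace X] (x : X) : C(X, unitInterval) → ℝ := fun g => g x

theorem continuous_emb : Continuous (emb X) :=
  continuous_pi fun g => continuous_subtype_val.comp g.continuous

theorem isEmbedding_emb [T35Space X] : IsEmbedding (emb X) := by
  have hind : IsInducing (emb X) := by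
    rw [isInducing_iff_nhds]
    intro x
    refine le_antisymm (continuous_emb.tendsto x).le_comap fun U hU => ?_
    obtain ⟨V, hVU, hV, hxV⟩ := mem_nhds_iff.1 hU
    obtain ⟨f, hf, hf0, hf1⟩ := CompletelyRegularSpace.completely_regular_isOpen x V hV hxV
    refine ⟨{y | y ⟨f, hf⟩ < 1}, (isOpen_lt (continuous_apply _) continuous_const).mem_nhds ?_,
      fun y hy => hVU ?_⟩
    · simp [emb, hf0]
    · by_contra h
      simp [emb, hf1 h] at hy
  exact hind.isEmbedding

theorem exists_extender [T35Space X]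
    (H : ∀ (Z : Type u) [TopologicalSpace Z] [T35Space Z] (e : X → Z),
      IsClosedEmbedding e → ∃ φ : CP X → CP Z,
        Continuous φ ∧ ∀ (f : CP X) (x : X), (φ f).1 (e x) = f.1 x)
    {K : Type u} [TopologicalSpace K] [T35Space K] (j : X → K) (hj : IsEmbedding j) :
    ∃ Φ : K → CP X → ℝ, (∀ f, Continuous fun y => Φ y f) ∧ (∀ y, Continuous (Φ y)) ∧
      (∀ y, Φ y (cpZero X) = 0) ∧ ∀ x f, Φ (j x) f = f.1 x := by
  classical
  let c : Cardinal.{u} := Order.succ (max (Cardinal.mk (CP X × X × ℕ)) Cardinal.aleph0)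
  have hreg : c.IsRegular := Cardinal.isRegular_succ (le_max_right _ _)
  have hc : Cardinal.mk (CP X × X × ℕ) < c := Order.lt_succ_of_le (le_max_left _ _)
  let S : Type u := c.out
  have hS : Cardinal.mk S = c := Cardinal.mk_out c
  let A : Type u := {s : Set S // Cardinal.mk s < c}
  let χ : S → A → ℝ := fun s a => if s ∈ a.1 then 1 else 0
  have hχ0 : ∀ s, χ s ≠ 0 := by
    intro s h
    have h1 : Cardinal.mk ({s} : Set S) < c := by
      rw [Cardinal.mk_singleton]
      exact lt_of_lt_of_le Cardinal.one_lt_aleph0 hreg.aleph0_le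
    have := congrFun h ⟨{s}, h1⟩
    simp [χ] at this
  have hχ : Tendsto χ (cocardinal S hreg) (𝓝 0) := by
    rw [tendsto_pi_nhds]
    intro a
    refine tendsto_const_nhds.congr' ?_
    refine (eventually_cocardinal_notMem_of_card_lt a.2).mono fun s hs => ?_
    simp [χ, hs]
  have hne : NeBot (cocardinal S hreg) := by
    have := (cocardinal_inf_principal_neBot_iff (hreg := hreg) (s := (univ : Set S))).2
      (by rw [Cardinal.mk_univ, hS])
    simpa using this
  let Z : Type u := {q : K × (A → ℝ) // q.2 = 0 → q.1 ∈ range j}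
  let e : X → Z := fun x => ⟨(j x, 0), fun _ => mem_range_self x⟩
  have he : IsClosedEmbedding e := by
    have hcont : Continuous e := (hj.continuous.prodMk continuous_const).subtype_mk _
    refine ⟨IsEmbedding.of_comp hcont (continuous_fst.comp continuous_subtype_val) hj, ?_⟩
    have : range e = {q : Z | q.1.2 = 0} := by
      ext ⟨⟨y, w⟩, h⟩
      constructor
      · rintro ⟨x, hx⟩
        have := congrArg (fun q : Z => q.1.2) hx
        exact this.symm
      · intro hw
        simp only [mem_ofPred_eq] at hw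
        obtain ⟨x, hx⟩ := h hw
        subst hw
        subst hx
        exact ⟨x, rfl⟩
    rw [this]
    exact isClosed_eq (continuous_snd.comp continuous_subtype_val) continuous_const
  obtain ⟨φ, hφ1, hφ2⟩ := H Z e he
  let ι : S → K → Z := fun s y => ⟨(y, χ s), fun h => absurd h (hχ0 s)⟩
  have hι : ∀ s, Continuous (ι s) := fun s =>
    (continuous_id.prodMk continuous_const).subtype_mk _
  have h1 : ∀ q : CP X × X × ℕ, ∀ᶠ s in cocardinal S hreg,
      |(φ q.1).1 (ι s (j q.2.1)) - q.1.1 q.2.1| < 1 / ((q.2.2 : ℝ) + 1) := by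
    rintro ⟨f, x, n⟩
    have h2 : Tendsto (fun s => ι s (j x)) (cocardinal S hreg) (𝓝 (e x)) := by
      rw [tendsto_subtype_rng]
      exact tendsto_const_nhds.prodMk_nhds hχ
    have h3 := ((φ f).2.tendsto (e x)).comp h2
    rw [hφ2] at h3
    exact (Metric.tendsto_nhds.1 h3) _ Nat.one_div_pos_of_nat
  obtain ⟨s, hs⟩ := ((eventually_cardinal_forall hc).2 h1).exists
  have h2 : ∀ (f : CP X) (x : X), (φ f).1 (ι s (j x)) = f.1 x := by
    intro f x
    by_contra hne'
    obtain ⟨n, hn⟩ := exists_nat_one_div_lt (abs_pos.2 (sub_ne_zero.2 hne'))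
    exact lt_asymm hn (hs (f, x, n))
  refine ⟨fun y f => (φ f).1 (ι s y) - (φ (cpZero X)).1 (ι s y), fun f => ?_, fun y => ?_,
    fun y => sub_self _, fun x f => ?_⟩
  · exact ((φ f).2.comp (hι s)).sub ((φ _).2.comp (hι s))
  · exact ((continuous_apply (ι s y)).comp (continuous_subtype_val.comp hφ1)).sub continuous_const
  · simp only [h2]
    simp [cpZero]

theorem isClosed_range_of_extender {K : Type*} [TopologicalSpace K] [T35Space K] (j : X → K)
    (hj : Continuous j) (Φ : K → CP X → ℝ) (h1 : ∀ f, Continuous fun y => Φ y f)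
    (h2 : ∀ y, Continuous (Φ y)) (h0 : ∀ y, Φ y (cpZero X) = 0)
    (h3 : ∀ x f, Φ (j x) f = f.1 x) : IsClosed (range j) := by
  rw [← closure_subset_iff_isClosed]
  intro y hy
  by_contra hcon
  have hmem : Φ y ⁻¹' Iio (1 / 2) ∈ 𝓝 (cpZero X) :=
    (h2 y).continuousAt.preimage_mem_nhds (by rw [h0]; exact Iio_mem_nhds (by norm_num))
  obtain ⟨G, hG⟩ := exists_finset_cp hmem
  obtain ⟨g, hg, hg0, hg1⟩ := CompletelyRegularSpace.completely_regular y (j '' G)
    (G.finite_toSet.image j).isClosed (fun h => hcon (image_subset_range _ _ h))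
  have hc : Continuous fun z : K => 1 - (g z : ℝ) :=
    continuous_const.sub (continuous_subtype_val.comp hg)
  let f : CP X := ⟨fun x => 1 - (g (j x) : ℝ), hc.comp hj⟩
  have h4 := hG f (fun x hx => by simp [f, cpZero, hg1 (mem_image_of_mem j hx)])
  have h5 : closure (range j) ⊆ {z | Φ z f = 1 - (g z : ℝ)} := by
    apply closure_minimal _ (isClosed_eq (h1 f) hc)
    rintro _ ⟨x, rfl⟩
    exact h3 x f
  have h6 : Φ y f = 1 := by
    rw [h5 hy, hg0]
    simp
  rw [mem_preimage, h6, mem_Iio] at h4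
  norm_num at h4

theorem compactSpace_of_isClosed [T35Space X] (h : IsClosed (range (emb X))) : CompactSpace X := by
  have h1 : IsCompact (range (emb X)) := by
    refine (isCompact_univ_pi fun _ => (isCompact_Icc : IsCompact (Icc (0 : ℝ) 1))).of_isClosed_subset
      h ?_
    rintro _ ⟨x, rfl⟩ g _
    exact (g x).2
  rw [← image_univ, ← isEmbedding_emb.isCompact_iff] at h1
  exact ⟨h1⟩

variable {K : Type*}

/-- `s` is a support of the functional `Φ y` at the zero function -/
def Good (Φ : K → CP X → ℝ) (y : K) (s : Set X) : Prop :=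
  ∀ f : CP X, (∀ x ∈ s, f.1 x = 0) → |Φ y f| ≤ 1 / 2

theorem exists_good (Φ : K → CP X → ℝ) (h2 : ∀ y, Continuous (Φ y))
    (h0 : ∀ y, Φ y (cpZero X) = 0) (y : K) : ∃ (n : ℕ) (x : Fin n → X), Good Φ y (range x) := by
  have hmem : {f | |Φ y f| < 1 / 2} ∈ 𝓝 (cpZero X) :=
    (isOpen_lt (h2 y).abs continuous_const).mem_nhds (by simp [h0])
  obtain ⟨G, hG⟩ := exists_finset_cp hmem
  refine ⟨G.card, fun i => (G.equivFin.symm i).1, fun f hf => le_of_lt (hG f fun x hx => ?_)⟩
  exact hf x ⟨G.equivFin ⟨x, hx⟩, by simp⟩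

theorem isClosed_good [TopologicalSpace K] (Φ : K → CP X → ℝ)
    (h1 : ∀ f, Continuous fun y => Φ y f) (h2 : ∀ y, Continuous (Φ y)) (n : ℕ) :
    IsClosed {q : K × (Fin n → X) | Good Φ q.1 (range q.2)} := by
  rw [← isOpen_compl_iff, isOpen_iff_mem_nhds]
  rintro ⟨y, x⟩ h
  simp only [mem_compl_iff, mem_ofPred_eq, Good] at h
  push Not at h
  obtain ⟨f, hf0, hf⟩ := h
  let s : ℝ → CP X := fun δ => ⟨fun z => max (f.1 z - δ) 0 + min (f.1 z + δ) 0, by
    have := f.2
    fun_prop⟩
  have hs : Continuous s := by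
    refine Continuous.subtype_mk (continuous_pi fun z => ?_) _
    fun_prop
  have hs0 : s 0 = f := by
    apply Subtype.ext
    funext z
    simp [s]
  have h3 : {δ : ℝ | 1 / 2 < |Φ y (s δ)|} ∈ 𝓝 (0 : ℝ) :=
    (isOpen_lt continuous_const ((h2 y).comp hs).abs).mem_nhds (by simpa [hs0] using hf)
  obtain ⟨δ, hδ1, hδ2⟩ : ∃ δ : ℝ, 1 / 2 < |Φ y (s δ)| ∧ 0 < δ :=
    ((Filter.Eventually.filter_mono nhdsWithin_le_nhds h3).and
      (self_mem_nhdsWithin (s := Ioi (0 : ℝ)))).exists
  have hO : IsOpen {q : K × (Fin n → X) | 1 / 2 < |Φ q.1 (s δ)| ∧ ∀ i, |f.1 (q.2 i)| < δ} := by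
    simp only [ofPred_and, ofPred_forall]
    refine IsOpen.inter (isOpen_lt continuous_const ((h1 _).comp continuous_fst).abs) ?_
    refine isOpen_iInter_of_finite fun i => isOpen_lt ?_ continuous_const
    exact (f.2.comp ((continuous_apply i).comp continuous_snd)).abs
  refine mem_of_superset (hO.mem_nhds ⟨hδ1, fun i => ?_⟩) ?_
  · simp [hf0 _ (mem_range_self i), hδ2]
  · rintro ⟨y', x'⟩ ⟨h4, h5⟩ h6
    refine absurd (h6 (s δ) ?_) (not_le.2 h4)
    rintro _ ⟨i, rfl⟩
    have := abs_lt.1 (h5 i)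
    simp only [s]
    rw [max_eq_right (by linarith [this.2]), min_eq_right (by linarith [this.1]), add_zero]

theorem finite_good [CompactSpace X] [T2Space X] (Φ : K → CP X → ℝ) (h2 : ∀ y, Continuous (Φ y))
    (y : K) (n : ℕ) (hmin : ∀ k < n, ¬ ∃ x : Fin k → X, Good Φ y (range x)) :
    {x : Fin n → X | Good Φ y (range x)}.Finite := by
  classical
  have key : ∀ m, ∀ R : Finset X, R.card + m = n →
      {F : Finset X | R ⊆ F ∧ F.card ≤ n ∧ Good Φ y F}.Finite := by
    intro m
    induction m with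
    | zero =>
      intro R hR
      refine (finite_singleton R).subset ?_
      rintro F ⟨h1, h3, -⟩
      exact (Finset.eq_of_subset_of_card_le h1 (by omega)).symm
    | succ m ih =>
      intro R hR
      have hnot : ¬ Good Φ y R := by
        intro h
        refine hmin R.card (by omega) ⟨fun i => (R.equivFin.symm i).1, fun f hf => h f ?_⟩
        intro x hx
        exact hf x ⟨R.equivFin ⟨x, hx⟩, by simp⟩
      simp only [Good] at hnot
      push Not at hnot
      obtain ⟨f, hf0, hf⟩ := hnot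
      have hmem : {g | 1 / 2 < |Φ y g|} ∈ 𝓝 f :=
        (isOpen_lt continuous_const (h2 y).abs).mem_nhds hf
      obtain ⟨G, hG⟩ := exists_finset_cp hmem
      refine ((G \ R).finite_toSet.biUnion (t := fun x =>
        {F : Finset X | insert x R ⊆ F ∧ F.card ≤ n ∧ Good Φ y F}) fun x hx => ?_).subset ?_
      · apply ih
        rw [Finset.card_insert_of_notMem (Finset.mem_sdiff.1 hx).2]
        omega
      · rintro F ⟨h1, h3, h4⟩
        by_contra hcon
        simp only [mem_iUnion, mem_ofPred_eq, not_exists] at hcon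
        have h5 : ∀ x ∈ G, x ∈ F → x ∈ R := by
          intro x hx hxF
          by_contra hxR
          exact hcon x (Finset.mem_sdiff.2 ⟨hx, hxR⟩) ⟨Finset.insert_subset hxF h1, h3, h4⟩
        obtain ⟨h, hh0, hh1, -⟩ := exists_continuous_zero_one_of_isClosed
          F.finite_toSet.isClosed (G \ F).finite_toSet.isClosed (by
            rw [Finset.disjoint_coe]
            exact Finset.disjoint_sdiff)
        let g : CP X := ⟨fun x => f.1 x * h x, f.2.mul h.continuous⟩
        have h6 := hG g (fun x hx => by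
          by_cases hxF : x ∈ F
          · simp [g, hf0 x (h5 x hx hxF)]
          · have : h x = 1 := hh1 (Finset.mem_coe.2 (Finset.mem_sdiff.2 ⟨hx, hxF⟩))
            simp [g, this])
        have h7 := h4 g (fun x hx => by
          have : h x = 0 := hh0 hx
          simp [g, this])
        exact absurd h7 (not_le.2 h6)
  have h1 := key n ∅ (by simp)
  have h3 : (⋃ F ∈ {F : Finset X | ∅ ⊆ F ∧ F.card ≤ n ∧ Good Φ y F}, (F : Set X)).Finite :=
    h1.biUnion fun F _ => F.finite_toSet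
  refine (Set.Finite.pi' fun _ : Fin n => h3).subset fun x hx i => ?_
  refine mem_biUnion (x := Finset.univ.image x) ⟨by simp, ?_, ?_⟩ (by simp)
  · simpa using Finset.card_image_le (s := Finset.univ) (f := x)
  · simpa using hx

/-- On a suitable face the supports can be selected continuously. -/
theorem exists_good_selection {J : Type*} [CompactSpace X] [T2Space X] (Φ : (J → ℝ) → CP X → ℝ)
    (h1 : ∀ f, Continuous fun y => Φ y f) (h2 : ∀ y, Continuous (Φ y))
    (h0 : ∀ y, Φ y (cpZero X) = 0) (A0 : Set J) (a0 : J → ℝ) (hA0 : A0.Countable) :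
    ∃ (A : Set J) (a : J → ℝ), A.Countable ∧ A0 ⊆ A ∧ EqOn a a0 A0 ∧
      ∃ (n : ℕ) (p : (J → ℝ) → Fin n → X), Continuous p ∧
        ∀ z, EqOn z a A → Good Φ z (range (p z)) := by
  obtain ⟨A, a, n, hA, hA0A, haa0, -, hP, hterm⟩ := exists_terminal
    (fun A a k => ∀ z, EqOn z a A → ∀ i < k, ¬ ∃ x : Fin i → X, Good Φ z (range x))
    A0 a0 0 hA0 (by simp) (fun z _ => by
      obtain ⟨n, hn⟩ := exists_good Φ h2 h0 z
      exact ⟨n + 1, fun A a k hz hk h => h z hz n (by omega) hn⟩)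
  have hcl : ∀ i, IsClosed {z | ∃ x : Fin i → X, Good Φ z (range x)} := by
    intro i
    have := isClosedMap_fst_of_compactSpace _ (isClosed_good Φ h1 h2 i)
    convert this using 1
    ext z
    simp
  have hne : ∀ z, EqOn z a A → ∃ x : Fin n → X, Good Φ z (range x) := by
    intro z hz
    by_contra hcon
    obtain ⟨S, hS⟩ := exists_finset_of_mem_nhds ((hcl n).isOpen_compl.mem_nhds hcon)
    refine hterm (A ∪ S) z (hA.union S.countable_toSet) subset_union_left hz fun v hv i hi => ?_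
    rcases Nat.lt_succ_iff_lt_or_eq.1 hi with h | h
    · exact hP v (fun t ht => (hv (Or.inl ht)).trans (hz ht)) i h
    · subst h
      exact hS v (hv.mono subset_union_right)
  obtain ⟨A', a', hA', hAA', ha', p, hp1, hp2⟩ := exists_selection
    (fun z (x : Fin n → X) => Good Φ z (range x)) (isClosed_good Φ h1 h2 n) A a hA hne
    (fun z hz => finite_good Φ h2 z n (hP z hz))
  exact ⟨A', a', hA', hA0A.trans hAA', fun i hi => (ha' (hA0A hi)).trans (haa0 hi), n, p, hp1, hp2⟩

end Pool.Agent.MP_a58584_gt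

end

-- part MP_a58584_gt.Main
section

/-!
A non-metrizable t-extral space contains a Tychonoff cube of weight aleph one.
-/

set_option autoImplicit false

namespace Pool.Agent.MP_a58584_gt

open Set Filter Topology

universe u

variable {X : Type u} [TopologicalSpace X]

theorem exists_pair_agree [CompactSpace X] [T35Space X]
    (hm : ¬ TopologicalSpace.MetrizableSpace X) (B : Set C(X, unitInterval)) (hB : B.Countable) :
    ∃ a b : X, a ≠ b ∧ ∀ g ∈ B, g a = g b := by
  by_contra hcon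
  push Not at hcon
  apply hm
  have := hB.to_subtype
  let f : X → B → ℝ := fun x g => g.1 x
  have hf : Continuous f := continuous_pi fun g => continuous_subtype_val.comp g.1.continuous
  have hinj : Function.Injective f := by
    intro a b hab
    by_contra hne
    obtain ⟨g, hg, h⟩ := hcon a b hne
    exact h (Subtype.ext (congrFun hab ⟨g, hg⟩))
  exact (hf.isClosedEmbedding hinj).isEmbedding.metrizableSpace

theorem exists_bump [T35Space X] (U : Set X) (a : X) :
    ∃ f : CP X, (IsOpen U → a ∈ U → f.1 a = 1) ∧ ∀ x ∉ U, f.1 x = 0 := by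
  by_cases h : IsOpen U ∧ a ∈ U
  · obtain ⟨f, hf, hf0, hf1⟩ := CompletelyRegularSpace.completely_regular_isOpen a U h.1 h.2
    refine ⟨⟨fun x => 1 - (f x : ℝ), continuous_const.sub (continuous_subtype_val.comp hf)⟩,
      fun _ _ => by simp [hf0], fun x hx => by simp [hf1 hx]⟩
  · exact ⟨cpZero X, fun h1 h2 => absurd ⟨h1, h2⟩ h, fun _ _ => rfl⟩

theorem exists_sep [T35Space X] (π : X × X) :
    ∃ w : C(X, unitInterval), π.1 ≠ π.2 → w π.1 = 1 ∧ w π.2 = 0 := by
  by_cases h : π.1 = π.2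
  · exact ⟨ContinuousMap.const _ 0, fun h' => absurd h h'⟩
  · obtain ⟨f, hf, hf0, hf1⟩ := CompletelyRegularSpace.completely_regular π.2 {π.1}
      isClosed_singleton (fun h' => h (mem_singleton_iff.1 h').symm)
    exact ⟨⟨f, hf⟩, fun _ => ⟨hf1 (mem_singleton _), hf0⟩⟩

/-- neighbourhood of a pair that no earlier function separates -/
def nbD (w : X × X → C(X, unitInterval)) (ω : (X × X) × Finset (X × X)) : Set X :=
  {x | ∀ π ∈ ω.2, ((1 / 3 : ℝ) < w π ω.1.1 → (1 / 3 : ℝ) < w π x) ∧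
    (¬ (1 / 3 : ℝ) < w π ω.1.1 → (w π x : ℝ) < 2 / 3)}

/-- neighbourhood of the first point -/
def nbU (w : X × X → C(X, unitInterval)) (ω : (X × X) × Finset (X × X)) : Set X :=
  nbD w ω ∩ {x | (2 / 3 : ℝ) < w ω.1 x}

/-- neighbourhood of the second point -/
def nbV (w : X × X → C(X, unitInterval)) (ω : (X × X) × Finset (X × X)) : Set X :=
  nbD w ω ∩ {x | (w ω.1 x : ℝ) < 1 / 3}

/-- the pair `e` is separated by the function of `π` -/
def Sepd (w : X × X → C(X, unitInterval)) (π e : X × X) : Prop :=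
  (2 / 3 : ℝ) < w π e.1 ∧ (w π e.2 : ℝ) < 1 / 3

theorem isOpen_nbD (w : X × X → C(X, unitInterval)) (ω : (X × X) × Finset (X × X)) :
    IsOpen (nbD w ω) := by
  have : nbD w ω = ⋂ π ∈ ω.2, ({x | (1 / 3 : ℝ) < w π ω.1.1 → (1 / 3 : ℝ) < w π x} ∩
      {x | ¬ (1 / 3 : ℝ) < w π ω.1.1 → (w π x : ℝ) < 2 / 3}) := by
    ext x
    simp [nbD]
  rw [this]
  refine isOpen_biInter_finset fun π _ => ?_
  have hc : Continuous fun x => (w π x : ℝ) := continuous_subtype_val.comp (w π).continuous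
  by_cases h : (1 / 3 : ℝ) < w π ω.1.1
  · simp only [h, forall_const, not_true_eq_false, false_imp_iff, ofPred_true, inter_univ]
    exact isOpen_lt continuous_const hc
  · simp only [h, false_imp_iff, ofPred_true, not_false_eq_true, forall_const, univ_inter]
    exact isOpen_lt hc continuous_const

theorem isOpen_nbU (w : X × X → C(X, unitInterval)) (ω : (X × X) × Finset (X × X)) :
    IsOpen (nbU w ω) :=
  (isOpen_nbD w ω).inter
    (isOpen_lt continuous_const (continuous_subtype_val.comp (w ω.1).continuous))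

theorem isOpen_nbV (w : X × X → C(X, unitInterval)) (ω : (X × X) × Finset (X × X)) :
    IsOpen (nbV w ω) :=
  (isOpen_nbD w ω).inter
    (isOpen_lt (continuous_subtype_val.comp (w ω.1).continuous) continuous_const)

theorem not_sepd {w : X × X → C(X, unitInterval)} {ω : (X × X) × Finset (X × X)} {x y : X}
    (hx : x ∈ nbD w ω) (hy : y ∈ nbD w ω) {π : X × X} (hπ : π ∈ ω.2) : ¬ Sepd w π (x, y) := by
  rintro ⟨h1, h2⟩
  by_cases h : (1 / 3 : ℝ) < w π ω.1.1
  · exact lt_asymm h2 ((hy π hπ).1 h)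
  · exact lt_asymm h1 ((hx π hπ).2 h)

/-- admissible filters of pairs with a list of earlier pairs -/
def Nice (w : X × X → C(X, unitInterval)) (F : Filter ((X × X) × Finset (X × X))) : Prop :=
  NeBot F ∧ CountableInterFilter F ∧ (∀ g : C(X, unitInterval), ∀ᶠ ω in F, g ω.1.1 = g ω.1.2) ∧
    ∀ᶠ ω in F, ω.1.1 ≠ ω.1.2 ∧ ∀ π ∈ ω.2, w π ω.1.1 = w π ω.1.2

open Classical in
/-- the next filter: put a new pair on top of an old chain -/
noncomputable def nextF (F : Filter ((X × X) × Finset (X × X))) :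
    Filter ((X × X) × Finset (X × X)) :=
  map (fun cc => (cc.2.1, insert cc.1.1 cc.1.2)) (F.curry F)

open Classical in
omit [TopologicalSpace X] in
theorem eventually_nextF {F : Filter ((X × X) × Finset (X × X))}
    {p : (X × X) × Finset (X × X) → Prop} :
    (∀ᶠ ω in nextF F, p ω) ↔ ∀ᶠ c in F, ∀ᶠ c' in F, p (c'.1, insert c.1 c.2) := by
  rw [nextF, eventually_map, eventually_curry_iff]

theorem Nice.next {w : X × X → C(X, unitInterval)} {F : Filter ((X × X) × Finset (X × X))}
    (h : Nice w F) : Nice w (nextF F) := by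
  classical
  obtain ⟨h1, h2, h3, h4⟩ := h
  refine ⟨?_, ?_, fun g => ?_, ?_⟩
  · rw [neBot_iff, Ne, ← eventually_false_iff_eq_bot, eventually_nextF]
    simp [h1.ne]
  · unfold nextF
    infer_instance
  · rw [eventually_nextF]
    exact Eventually.of_forall fun _ => h3 g
  · rw [eventually_nextF]
    refine Eventually.of_forall fun c => (h4.mono fun _ h => h.1).and ?_
    exact (eventually_all_finset _).2 fun π _ => h3 (w π)

theorem Nice.mono {w : X × X → C(X, unitInterval)} {F F' : Filter ((X × X) × Finset (X × X))}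
    (h : Nice w F) (hle : F' ≤ F) (h1 : NeBot F') (h2 : CountableInterFilter F') : Nice w F' :=
  ⟨h1, h2, fun g => (h.2.2.1 g).filter_mono hle, h.2.2.2.filter_mono hle⟩

theorem exists_nice [CompactSpace X] [T35Space X] (hm : ¬ TopologicalSpace.MetrizableSpace X)
    (w : X × X → C(X, unitInterval)) : ∃ F, Nice w F := by
  obtain ⟨F, _, _, hF⟩ := exists_agree_filter (Ω := {π : X × X // π.1 ≠ π.2})
    (fun π (g : C(X, unitInterval)) => g π.1.1) (fun π g => g π.1.2) (fun B hB => by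
      obtain ⟨a, b, h1, h2⟩ := exists_pair_agree hm B hB
      exact ⟨⟨(a, b), h1⟩, h2⟩)
  refine ⟨map (fun π => (π.1, ∅)) F, inferInstance, inferInstance, fun g => ?_, ?_⟩
  · rw [eventually_map]
    exact hF g
  · rw [eventually_map]
    exact Eventually.of_forall fun π => ⟨π.2, by simp⟩

theorem exists_cube_of_extender [CompactSpace X] [T35Space X]
    (hm : ¬ TopologicalSpace.MetrizableSpace X)
    (Φ : (C(X, unitInterval) → ℝ) → CP X → ℝ) (h1 : ∀ f, Continuous fun y => Φ y f)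
    (h2 : ∀ y, Continuous (Φ y)) (h0 : ∀ y, Φ y (cpZero X) = 0)
    (h3 : ∀ x f, Φ (emb X x) f = f.1 x) (I : Type u) (hI : Cardinal.mk I = Cardinal.aleph 1) :
    ∃ h : (I → unitInterval) → X, IsEmbedding h := by
  classical
  choose w hw using exists_sep (X := X)
  choose bump hb1 hb2 using exists_bump (X := X)
  let Ω := (X × X) × Finset (X × X)
  let O : Ω → Set (C(X, unitInterval) → ℝ) := fun ω => {y | 1 / 2 < Φ y (bump (nbU w ω) ω.1.1)}
  let O' : Ω → Set (C(X, unitInterval) → ℝ) := fun ω => {y | 1 / 2 < Φ y (bump (nbV w ω) ω.1.2)}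
  have root : ∀ F : Filter Ω, Nice w F → ∃ F' : Filter Ω, F' ≤ F ∧ Nice w F' ∧
      ∃ (G : Set (C(X, unitInterval) → ℝ)) (R : Finset C(X, unitInterval)), IsClosed G ∧
        (∀ y ∈ G, ∀ y', EqOn y' y R → y' ∈ G) ∧ (∀ᶠ ω in F', emb X ω.1.1 ∈ G) ∧
        ∀ B : Set C(X, unitInterval), B.Countable → (R : Set _) ⊆ B → ∀ y ∈ G, ∀ᶠ ω in F',
          (∃ y', EqOn y' y B ∧ y' ∈ O ω) ∧ (∃ y', EqOn y' y B ∧ y' ∈ O' ω) := by
    intro F hF
    have := hF.1
    have := hF.2.1
    obtain ⟨F', hle, hn1, hn2, G, R, S, hG1, hG2, hS, hgood⟩ := exists_root F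
      (fun ω => emb X ω.1.1) (fun ω => emb X ω.1.2)
      (fun g => (hF.2.2.1 g).mono fun ω h => by simp only [emb, h]) O O'
      (hF.2.2.2.mono fun ω hω => by
        have ha : ω.1.1 ∈ nbD w ω := fun π _ => ⟨fun h => h, fun h => by linarith [not_lt.1 h]⟩
        have hb : ω.1.2 ∈ nbD w ω := fun π hπ => by
          rw [← hω.2 π hπ]
          exact ha π hπ
        have hU : ω.1.1 ∈ nbU w ω := ⟨ha, by
          simp only [mem_ofPred_eq, (hw ω.1 hω.1).1]
          norm_num⟩
        have hV : ω.1.2 ∈ nbV w ω := ⟨hb, by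
          simp only [mem_ofPred_eq, (hw ω.1 hω.1).2]
          norm_num⟩
        refine ⟨(isOpen_lt continuous_const (h1 _)).mem_nhds ?_,
          (isOpen_lt continuous_const (h1 _)).mem_nhds ?_⟩
        · simp only [mem_ofPred_eq, h3, hb1 _ _ (isOpen_nbU w ω) hU]
          norm_num
        · simp only [mem_ofPred_eq, h3, hb1 _ _ (isOpen_nbV w ω) hV]
          norm_num)
    refine ⟨F', hle, hF.mono hle hn1 hn2, G, R, hG1, hG2, hgood.mono fun ω h => h.1,
      fun B hB hRB y hy => ?_⟩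
    have hdis : ∀ᶠ ω in F', ∀ i ∈ B, i ∉ S ω := (eventually_countable_ball hB).2 fun i _ => hS i
    refine (hgood.and hdis).mono fun ω ⟨⟨_, h5⟩, h6⟩ => ?_
    have e1 : ∀ a : C(X, unitInterval) → ℝ, EqOn ((S ω : Set _).piecewise a y) y B :=
      fun a i hi => piecewise_eq_of_notMem _ _ _ (h6 i hi)
    have e2 : ∀ a : C(X, unitInterval) → ℝ, EqOn ((S ω : Set _).piecewise a y) a (S ω) :=
      fun a i hi => piecewise_eq_of_mem _ _ _ hi
    exact ⟨⟨_, e1 _, (h5 _ (hG2 y hy _ ((e1 _).mono hRB))).1 (e2 _)⟩,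
      ⟨_, e1 _, (h5 _ (hG2 y hy _ ((e1 _).mono hRB))).2 (e2 _)⟩⟩
  choose! nx hnx1 hnx2 GG RR hG1 hG2 hG3 hG4 using root
  obtain ⟨F0, hF0⟩ := exists_nice hm w
  let P : ℕ → Filter Ω := fun k => Nat.rec F0 (fun _ F => nextF (nx F)) k
  have hP : ∀ k, Nice w (P k) := by
    intro k
    induction k with
    | zero => exact hF0
    | succ k ih => exact (hnx2 _ ih).next
  have hPs : ∀ k, P (k + 1) = nextF (nx (P k)) := fun k => rfl
  have hGm : ∀ m, ∀ᶠ ω in nx (P m), ∀ k ≤ m, emb X ω.1.1 ∈ GG (P k) := by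
    intro m
    induction m with
    | zero =>
      refine (hG3 _ (hP 0)).mono fun ω h k hk => ?_
      rwa [Nat.le_zero.1 hk]
    | succ m ih =>
      have e1 : ∀ᶠ ω in P (m + 1), ∀ k ≤ m, emb X ω.1.1 ∈ GG (P k) := by
        rw [hPs, eventually_nextF]
        exact Eventually.of_forall fun _ => ih
      refine ((e1.filter_mono (hnx1 _ (hP (m + 1)))).and (hG3 _ (hP (m + 1)))).mono ?_
      intro ω h k hk
      rcases Nat.le_succ_iff.1 hk with h' | h'
      · exact h.1 k h'
      · rw [h']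
        exact h.2
  obtain ⟨x0, hx0⟩ : ∃ x0 : X, ∀ k, emb X x0 ∈ GG (P k) := by
    have hcl : ∀ m, IsClosed {x : X | ∀ k ≤ m, emb X x ∈ GG (P k)} := by
      intro m
      simp only [ofPred_forall]
      exact isClosed_iInter fun k => isClosed_iInter fun _ =>
        (hG1 _ (hP k)).preimage continuous_emb
    obtain ⟨x, hx⟩ := IsCompact.nonempty_iInter_of_sequence_nonempty_isCompact_isClosed
      (fun m => {x : X | ∀ k ≤ m, emb X x ∈ GG (P k)})
      (fun m x hx k hk => hx k (hk.trans (Nat.le_succ m)))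
      (fun m => by
        have := (hnx2 _ (hP m)).1
        obtain ⟨ω, hω⟩ := (hGm m).exists
        exact ⟨_, hω⟩)
      (hcl 0).isCompact hcl
    exact ⟨x, fun k => mem_iInter.1 hx k k le_rfl⟩
  obtain ⟨A, a, hA, hRA, ha, n, p, hp1, hp2⟩ := exists_good_selection Φ h1 h2 h0
    (⋃ k, (RR (P k) : Set C(X, unitInterval))) (emb X x0)
    (countable_iUnion fun k => (RR (P k)).countable_toSet)
  have hRA' : ∀ k, (RR (P k) : Set C(X, unitInterval)) ⊆ A :=
    fun k => (subset_iUnion (fun k => (RR (P k) : Set C(X, unitInterval))) k).trans hRA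
  have haG : ∀ k, a ∈ GG (P k) := fun k => hG2 _ (hP k) _ (hx0 k) _
    (ha.mono (subset_iUnion (fun k => (RR (P k) : Set C(X, unitInterval))) k))
  by_contra hcon
  have hdep : ∀ i : Fin n, ∃ B : Set C(X, unitInterval), B.Countable ∧
      ∀ z z', EqOn z z' B → p z i = p z' i := by
    intro i
    by_contra hc
    push Not at hc
    exact hcon (exists_cube_embedding (fun z => p z i) ((continuous_apply i).comp hp1) hc I hI)
  choose B hB1 hB2 using hdep
  have hBc : (A ∪ ⋃ i, B i).Countable := hA.union (countable_iUnion hB1)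
  have hgood : ∀ y, EqOn y a (A ∪ ⋃ i, B i) → Good Φ y (range (p a)) := by
    intro y hy
    have : p y = p a := funext fun i =>
      hB2 i _ _ (hy.mono ((subset_iUnion B i).trans subset_union_right))
    rw [← this]
    exact hp2 y (hy.mono subset_union_left)
  have hhit0 : ∀ (U : Set X) (x : X) (y), EqOn y a (A ∪ ⋃ i, B i) → 1 / 2 < Φ y (bump U x) →
      ∃ i, p a i ∈ U := by
    intro U x y hy h
    by_contra hc
    push Not at hc
    have := hgood y hy (bump U x) (by
      rintro _ ⟨i, rfl⟩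
      exact hb2 U x _ (hc i))
    linarith [le_abs_self (Φ y (bump U x))]
  have hhit : ∀ k, ∀ᶠ ω in nx (P k), (∃ i, p a i ∈ nbU w ω) ∧ ∃ i, p a i ∈ nbV w ω := by
    intro k
    refine (hG4 _ (hP k) _ hBc ((hRA' k).trans subset_union_left) a (haG k)).mono ?_
    rintro ω ⟨⟨y, hy1, hy2⟩, y', hy3, hy4⟩
    exact ⟨hhit0 _ _ y hy1 hy2, hhit0 _ _ y' hy3 hy4⟩
  have hcount : ∀ k, ∀ᶠ ω in P k, ∃ E : Finset (Fin n × Fin n), E.card = k ∧
      ∀ e ∈ E, ∃ π ∈ ω.2, Sepd w π (p a e.1, p a e.2) := by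
    intro k
    induction k with
    | zero => exact Eventually.of_forall fun ω => ⟨∅, rfl, by simp⟩
    | succ k ih =>
      rw [hPs, eventually_nextF]
      refine ((ih.filter_mono (hnx1 _ (hP k))).and (hhit k)).mono ?_
      rintro c ⟨⟨E, hE1, hE2⟩, ⟨i, hi⟩, i', hi'⟩
      refine Eventually.of_forall fun c' => ⟨insert (i, i') E, ?_, ?_⟩
      · rw [Finset.card_insert_of_notMem, hE1]
        intro h
        obtain ⟨π, hπ1, hπ2⟩ := hE2 _ h
        exact not_sepd hi.1 hi'.1 hπ1 hπ2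
      · intro e he
        rcases Finset.mem_insert.1 he with h | h
        · subst h
          exact ⟨c.1, Finset.mem_insert_self _ _, hi.2, hi'.2⟩
        · obtain ⟨π, hπ1, hπ2⟩ := hE2 _ h
          exact ⟨π, Finset.mem_insert_of_mem hπ1, hπ2⟩
  have := (hP (n * n + 1)).1
  obtain ⟨ω, E, hE, -⟩ := (hcount (n * n + 1)).exists
  have := Finset.card_le_univ E
  simp only [Fintype.card_prod, Fintype.card_fin] at this
  omega

/-- A non-metrizable t-extral space contains a Tychonoff cube of weight aleph one. -/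
theorem exists_cube [T35Space X]
    (H : ∀ (Z : Type u) [TopologicalSpace Z] [T35Space Z] (e : X → Z),
      IsClosedEmbedding e → ∃ φ : CP X → CP Z,
        Continuous φ ∧ ∀ (f : CP X) (x : X), (φ f).1 (e x) = f.1 x)
    (hm : ¬ TopologicalSpace.MetrizableSpace X) (I : Type u)
    (hI : Cardinal.mk I = Cardinal.aleph 1) : ∃ h : (I → unitInterval) → X, IsEmbedding h := by
  obtain ⟨Φ, h1, h2, h0, h3⟩ := exists_extender H (emb X) isEmbedding_emb
  have := compactSpace_of_isClosed
    (isClosed_range_of_extender (emb X) continuous_emb Φ h1 h2 h0 h3)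
  exact exists_cube_of_extender hm Φ h1 h2 h0 h3 I hI

end Pool.Agent.MP_a58584_gt

end
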